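import Pool.Agent.Helper86.QA.St1

/-!
# Project QD, part A, module ALP: the eigenvalue of the averaging kernel on `t ^ s`
-/

set_option autoImplicit false

open MeasureTheory Matrix Set Topology
open scoped ENNReal ComplexConjugate

namespace Pool.Agent.Helper29.QA

open Pool.Agent.Helper86.QA

private theorem ll_ge : 1 ≤ ll := by
  unfold ll
  have := Real.sqrt_nonneg 3
  linarith

private theorem kk_nn (x y : Pt) : 0 ≤ kk x y := by
  unfold kk
  split_ifs <;> norm_num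

private theorem oo_up : oo ∈ up := by
  show (0 : ℝ) < 1
  norm_num

private theorem kk_meas (hCHI : StCHI) (x : Pt) : Measurable (kk x) := by
  have h := hCHI.2.2.2.2.2
  have h2 : Measurable (fun y : Pt => ((x, y) : Pt × Pt)) := measurable_const.prodMk measurable_id
  have h3 : Measurable ((fun p : Pt × Pt => kk p.1 p.2) ∘ fun y => (x, y)) := h.comp h2
  exact h3

private theorem fm (hCHI : StCHI) (x : Pt) (s : ℝ) :
    Measurable (fun y : Pt => ENNReal.ofReal (kk x y * y.2 ^ s)) :=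
  ((kk_meas hCHI x).mul (measurable_snd.pow_const s)).ennreal_ofReal

private theorem rpow_bd (hCHI : StCHI) (s : ℝ) (y : Pt) (hy : y ∈ up) (hk : ch oo y ≤ 2) :
    y.2 ^ s ≤ ll ^ |s| := by
  obtain ⟨h1, h2, -⟩ := hCHI.2.2.2.1 oo oo_up y hy hk
  have hy0 : 0 < y.2 := hy
  have h1' : y.2 ≤ ll := by simpa [oo] using h1
  have h2' : 1 ≤ ll * y.2 := by simpa [oo] using h2
  have hl := ll_ge
  rcases le_or_gt 0 s with hs | hs
  · rw [abs_of_nonneg hs]
    exact Real.rpow_le_rpow hy0.le h1' hs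
  · rw [abs_of_neg hs]
    have h3 : y.2 ^ s = (y.2⁻¹) ^ (-s) := by
      rw [Real.inv_rpow hy0.le, Real.rpow_neg hy0.le, inv_inv]
    rw [h3]
    apply Real.rpow_le_rpow (inv_pos.2 hy0).le _ (by linarith)
    rw [inv_le_iff_one_le_mul₀ hy0]
    exact h2'

private theorem int_al (hCHI : StCHI) (hKRN : StKRN) (s : ℝ) :
    Integrable (fun y : Pt => kk oo y * y.2 ^ s) vol := by
  obtain ⟨-, -, hK⟩ := hKRN
  have h1 := (hK oo oo_up).1
  refine (h1.mul_const (ll ^ |s|)).mono' ?_ ?_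
  · exact ((kk_meas hCHI oo).mul (measurable_snd.pow_const s)).aestronglyMeasurable
  · filter_upwards [ae_up] with y hy
    have hy0 : 0 < y.2 := hy
    rw [norm_mul, Real.norm_of_nonneg (kk_nn _ _), Real.norm_of_nonneg
      (Real.rpow_nonneg hy0.le s)]
    by_cases h : ch oo y ≤ 2
    · exact mul_le_mul_of_nonneg_left (rpow_bd hCHI s y hy h) (kk_nn _ _)
    · have h0 : kk oo y = 0 := if_neg h
      rw [h0, zero_mul, zero_mul]

private theorem ae_nn (s : ℝ) : 0 ≤ᵐ[vol] fun y : Pt => kk oo y * y.2 ^ s := by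
  filter_upwards [ae_up] with y hy
  have hy0 : 0 < y.2 := hy
  exact mul_nonneg (kk_nn _ _) (Real.rpow_nonneg hy0.le s)

private theorem al_nn (s : ℝ) : 0 ≤ al s := integral_nonneg_of_ae (ae_nn s)

private theorem lint_al (hCHI : StCHI) (hKRN : StKRN) (s : ℝ) :
    ∫⁻ y, ENNReal.ofReal (kk oo y * y.2 ^ s) ∂vol = ENNReal.ofReal (al s) :=
  (ofReal_integral_eq_lintegral_ofReal (int_al hCHI hKRN s) (ae_nn s)).symm

/-- the second statement -/
private theorem eig (hACT : StACT) (hCHI : StCHI) (hVOL : StVOL) (hKRN : StKRN) (s : ℝ) (g : SL)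
    (x : Pt) (hx : x ∈ up) : ∫⁻ y, ENNReal.ofReal (kk x y * (ga g y).2 ^ s) ∂vol =
      ENNReal.ofReal (al s * (ga g x).2 ^ s) := by
  obtain ⟨hA1, -, -, -, hA5, -⟩ := hACT
  have hk := hCHI.2.1
  have hV := hVOL.2.1
  have hu : ga g x ∈ up := (hA1 g x hx).2.1
  have hu0 : 0 < (ga g x).2 := hu
  set u := ga g x with hudef
  have hF := fm hCHI u s
  have e1 : ∫⁻ y, ENNReal.ofReal (kk x y * (ga g y).2 ^ s) ∂vol =
      ∫⁻ y, ENNReal.ofReal (kk u y * y.2 ^ s) ∂vol := by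
    rw [← hV g _ hF]
    apply lintegral_congr_ae
    filter_upwards [ae_up] with y hy
    rw [hudef, (hk g x hx y hy).2]
  have hoo : ga (gx u hu) oo = u := by
    rw [hA5 u hu oo]
    apply Prod.ext
    · show u.1 + (u.2 : ℂ) * 0 = u.1
      ring
    · show u.2 * 1 = u.2
      ring
  have e2 : ∫⁻ y, ENNReal.ofReal (kk u y * y.2 ^ s) ∂vol =
      ∫⁻ y, ENNReal.ofReal (u.2 ^ s) * ENNReal.ofReal (kk oo y * y.2 ^ s) ∂vol := by
    rw [← hV (gx u hu) _ hF]
    apply lintegral_congr_ae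
    filter_upwards [ae_up] with y hy
    have hy0 : 0 < y.2 := hy
    have h1 : kk u (ga (gx u hu) y) = kk oo y := by
      have h2 := (hk (gx u hu) oo oo_up y hy).2
      rw [hoo] at h2
      exact h2
    rw [h1, hA5 u hu y, ← ENNReal.ofReal_mul (Real.rpow_nonneg hu0.le s)]
    show ENNReal.ofReal (kk oo y * (u.2 * y.2) ^ s) = _
    rw [Real.mul_rpow hu0.le hy0.le]
    congr 1
    ring
  rw [e1, e2, lintegral_const_mul _ (fm hCHI oo s), lint_al hCHI hKRN,
    ← ENNReal.ofReal_mul (Real.rpow_nonneg hu0.le s), mul_comm]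

/-- the integrand in one variable -/
private noncomputable def GG (s t : ℝ) : ℝ :=
  1 / t ^ 3 * (t ^ s * (Real.pi * max (4 * t - 1 - t ^ 2) 0))

private theorem gg_meas (s : ℝ) : Measurable (GG s) := by
  unfold GG
  fun_prop

private theorem gg_nn (s : ℝ) {t : ℝ} (ht : 0 < t) : 0 ≤ GG s t := by
  unfold GG
  have h1 := Real.rpow_nonneg ht.le s
  have h2 := Real.pi_pos
  have h3 : 0 ≤ max (4 * t - 1 - t ^ 2) 0 := le_max_right _ _
  positivity

private theorem slice (s : ℝ) {t : ℝ} (ht : 0 < t) :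
    ∫⁻ z : ℂ, ENNReal.ofReal (kk oo (z, t) * t ^ s) =
      ENNReal.ofReal (t ^ s * (Real.pi * max (4 * t - 1 - t ^ 2) 0)) := by
  have hch : ∀ z : ℂ, ch oo (z, t) ≤ 2 ↔ ‖z‖ ^ 2 ≤ 4 * t - 1 - t ^ 2 := by
    intro z
    have h1 : ch oo (z, t) = (‖z‖ ^ 2 + 1 + t ^ 2) / (2 * t) := by
      unfold ch oo
      simp
    rw [h1, div_le_iff₀ (by positivity)]
    constructor <;> intro h <;> linarith
  rcases le_or_gt 0 (4 * t - 1 - t ^ 2) with h0 | h0
  · have h2 : (fun z : ℂ => ENNReal.ofReal (kk oo (z, t) * t ^ s)) =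
        (Metric.closedBall (0 : ℂ) (Real.sqrt (4 * t - 1 - t ^ 2))).indicator
          (fun _ => ENNReal.ofReal (t ^ s)) := by
      funext z
      have h3 : z ∈ Metric.closedBall (0 : ℂ) (Real.sqrt (4 * t - 1 - t ^ 2)) ↔
          ch oo (z, t) ≤ 2 := by
        rw [hch, mem_closedBall_zero_iff, Real.le_sqrt (norm_nonneg z) h0]
      by_cases h : ch oo (z, t) ≤ 2
      · rw [Set.indicator_of_mem (h3.2 h)]
        have h4 : kk oo (z, t) = 1 := if_pos h
        rw [h4, one_mul]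
      · rw [Set.indicator_of_notMem (fun h' => h (h3.1 h'))]
        have h4 : kk oo (z, t) = 0 := if_neg h
        rw [h4, zero_mul, ENNReal.ofReal_zero]
    rw [h2, lintegral_indicator Metric.isClosed_closedBall.measurableSet, setLIntegral_const,
      Complex.volume_closedBall, max_eq_left h0, ENNReal.ofReal_mul (Real.rpow_nonneg ht.le s)]
    congr 1
    rw [← ENNReal.ofReal_pow (Real.sqrt_nonneg _), Real.sq_sqrt h0, mul_comm Real.pi,
      ENNReal.ofReal_mul h0]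
    congr 1
    exact (ENNReal.ofReal_coe_nnreal (p := NNReal.pi)).symm
  · have h2 : ∀ z : ℂ, ENNReal.ofReal (kk oo (z, t) * t ^ s) = 0 := by
      intro z
      have h4 : kk oo (z, t) = 0 := by
        apply if_neg
        rw [hch]
        have := sq_nonneg ‖z‖
        intro h
        linarith
      rw [h4, zero_mul, ENNReal.ofReal_zero]
    simp only [h2, lintegral_zero]
    rw [max_eq_right h0.le, mul_zero, mul_zero, ENNReal.ofReal_zero]

private theorem al_eq (hCHI : StCHI) (hVOL : StVOL) (hKRN : StKRN) (s : ℝ) :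
    al s = ∫ t in Ioi (0 : ℝ), GG s t := by
  have h1 := lint_al hCHI hKRN s
  rw [hVOL.1 _ (fm hCHI oo s)] at h1
  have h2 : ∫⁻ t in Ioi (0 : ℝ), ENNReal.ofReal (1 / t ^ 3) *
      ∫⁻ z : ℂ, ENNReal.ofReal (kk oo (z, t) * t ^ s) =
      ∫⁻ t in Ioi (0 : ℝ), ENNReal.ofReal (GG s t) := by
    apply setLIntegral_congr_fun measurableSet_Ioi
    intro t ht
    have ht0 : (0 : ℝ) < t := ht
    show ENNReal.ofReal (1 / t ^ 3) * ∫⁻ z : ℂ, ENNReal.ofReal (kk oo (z, t) * t ^ s) = _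
    rw [slice s ht0, ← ENNReal.ofReal_mul (by positivity)]
    rfl
  have h3 : ∫ t in Ioi (0 : ℝ), GG s t =
      (∫⁻ t in Ioi (0 : ℝ), ENNReal.ofReal (GG s t)).toReal := by
    apply integral_eq_lintegral_of_nonneg_ae
    · filter_upwards [ae_restrict_mem measurableSet_Ioi] with t ht
      exact gg_nn s ht
    · exact (gg_meas s).aestronglyMeasurable
  rw [h3, ← h2]
  have h4 : ENNReal.toReal (ENNReal.ofReal (al s)) = al s := ENNReal.toReal_ofReal (al_nn s)
  rw [← h4, ← h1]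

private theorem al_two_zero (hCHI : StCHI) (hVOL : StVOL) (hKRN : StKRN) : al 2 = al 0 := by
  rw [al_eq hCHI hVOL hKRN, al_eq hCHI hVOL hKRN,
    ← integral_comp_rpow_Ioi (GG 2) (p := -1) (by norm_num)]
  apply setIntegral_congr_fun measurableSet_Ioi
  intro t ht
  have ht0 : (0 : ℝ) < t := ht
  show (|(-1 : ℝ)| * t ^ ((-1 : ℝ) - 1)) • GG 2 (t ^ (-1 : ℝ)) = GG 0 t
  have h1 : t ^ (-1 : ℝ) = t⁻¹ := Real.rpow_neg_one t
  have h2 : t ^ ((-1 : ℝ) - 1) = (t ^ 2)⁻¹ := by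
    rw [show ((-1 : ℝ) - 1) = -((2 : ℕ) : ℝ) by norm_num, Real.rpow_neg ht0.le,
      Real.rpow_natCast]
  rw [h1, h2, smul_eq_mul]
  unfold GG
  have h3 : (t⁻¹ : ℝ) ^ (2 : ℝ) = (t ^ 2)⁻¹ := by
    rw [show (2 : ℝ) = ((2 : ℕ) : ℝ) by norm_num, Real.rpow_natCast, inv_pow]
  have h4 : max (4 * t⁻¹ - 1 - t⁻¹ ^ 2) 0 = (t ^ 2)⁻¹ * max (4 * t - 1 - t ^ 2) 0 := by
    have h5 : 4 * t⁻¹ - 1 - t⁻¹ ^ 2 = (t ^ 2)⁻¹ * (4 * t - 1 - t ^ 2) := by
      field_simp
      ring
    rw [h5, mul_max_of_nonneg _ _ (by positivity), mul_zero]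
  rw [h3, h4, Real.rpow_zero, abs_neg, abs_one]
  field_simp

theorem hALP (hACT : StACT) (hCHI : StCHI) (hVOL : StVOL) (hKRN : StKRN) : StALP := by
  have a0 : al 0 = VV := by
    unfold al VV
    simp only [Real.rpow_zero, mul_one]
  have a2 : al 2 = VV := (al_two_zero hCHI hVOL hKRN).trans a0
  have i0 := int_al hCHI hKRN 0
  have i1 := int_al hCHI hKRN 1
  have i2 := int_al hCHI hKRN 2
  refine ⟨fun s => ⟨al_nn s, int_al hCHI hKRN s⟩, fun s g x hx => eig hACT hCHI hVOL hKRN s g x hx,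
    a0, a2, ?_, ?_⟩
  · -- strict inequality
    have hint : Integrable (fun y : Pt => kk oo y * (1 - y.2) ^ 2) vol := by
      have h := (i0.sub (i1.const_mul 2)).add i2
      refine h.congr (Filter.Eventually.of_forall fun y => ?_)
      show (kk oo y * y.2 ^ (0 : ℝ) - 2 * (kk oo y * y.2 ^ (1 : ℝ))) + kk oo y * y.2 ^ (2 : ℝ) =
        kk oo y * (1 - y.2) ^ 2
      rw [Real.rpow_zero, Real.rpow_one, show (2 : ℝ) = ((2 : ℕ) : ℝ) by norm_num,
        Real.rpow_natCast]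
      push_cast
      ring
    have hval : ∫ y, kk oo y * (1 - y.2) ^ 2 ∂vol = 2 * (VV - al 1) := by
      have h : ∫ y : Pt, kk oo y * (1 - y.2) ^ 2 ∂vol =
          ∫ y : Pt, ((kk oo y * y.2 ^ (0 : ℝ) - 2 * (kk oo y * y.2 ^ (1 : ℝ))) +
            kk oo y * y.2 ^ (2 : ℝ)) ∂vol := by
        congr 1
        funext y
        rw [Real.rpow_zero, Real.rpow_one, show (2 : ℝ) = ((2 : ℕ) : ℝ) by norm_num,
          Real.rpow_natCast]
        push_cast
        ring
      have e1 : ∫ y : Pt, ((kk oo y * y.2 ^ (0 : ℝ) - 2 * (kk oo y * y.2 ^ (1 : ℝ))) +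
            kk oo y * y.2 ^ (2 : ℝ)) ∂vol =
          ∫ y : Pt, (kk oo y * y.2 ^ (0 : ℝ) - 2 * (kk oo y * y.2 ^ (1 : ℝ))) ∂vol + al 2 :=
        integral_add (i0.sub (i1.const_mul 2)) i2
      have e2 : ∫ y : Pt, (kk oo y * y.2 ^ (0 : ℝ) - 2 * (kk oo y * y.2 ^ (1 : ℝ))) ∂vol =
          al 0 - ∫ y : Pt, 2 * (kk oo y * y.2 ^ (1 : ℝ)) ∂vol :=
        integral_sub i0 (i1.const_mul 2)
      have e3 : ∫ y : Pt, 2 * (kk oo y * y.2 ^ (1 : ℝ)) ∂vol = 2 * al 1 := integral_const_mul _ _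
      rw [h, e1, e2, e3, a0, a2]
      ring
    have hnn : 0 ≤ fun y : Pt => kk oo y * (1 - y.2) ^ 2 := fun y =>
      mul_nonneg (kk_nn _ _) (sq_nonneg _)
    by_contra hcon
    push Not at hcon
    have hz : ∫ y, kk oo y * (1 - y.2) ^ 2 ∂vol = 0 := by
      apply le_antisymm
      · rw [hval]
        linarith
      · exact integral_nonneg hnn
    rw [integral_eq_zero_iff_of_nonneg hnn hint] at hz
    -- the level set has measure zero
    have hlev : ∀ᵐ y ∂vol, y.2 ≠ 1 := by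
      have h1 : (volume : Measure Pt) {y | y.2 = 1} = 0 := by
        have h2 : {y : Pt | y.2 = 1} = (univ : Set ℂ) ×ˢ ({1} : Set ℝ) := by
          ext y
          simp
        rw [h2, Measure.volume_eq_prod, Measure.prod_prod, Real.volume_singleton, mul_zero]
      have h3 : vol ≪ (volume : Measure Pt) :=
        (withDensity_absolutelyContinuous _ _).trans Measure.restrict_le_self.absolutelyContinuous
      have h4 := h3 h1
      rw [ae_iff]
      simpa using h4
    have hk0 : kk oo =ᵐ[vol] 0 := by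
      filter_upwards [hz, hlev] with y h1 h2
      have h3 : kk oo y * (1 - y.2) ^ 2 = 0 := h1
      rcases mul_eq_zero.1 h3 with h4 | h4
      · exact h4
      · exact absurd (pow_eq_zero_iff (two_ne_zero)|>.1 h4) (sub_ne_zero.2 (Ne.symm h2))
    have hVV : VV = 0 := by
      unfold VV
      rw [integral_congr_ae hk0]
      simp
    exact absurd hVV hKRN.1.ne'
  · -- convexity
    intro s hs
    have h1 : al s ≤ (2 - s) * al 1 + (s - 1) * al 2 := by
      have h2 : (2 - s) * al 1 + (s - 1) * al 2 =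
          ∫ y : Pt, ((2 - s) * (kk oo y * y.2 ^ (1 : ℝ)) +
            (s - 1) * (kk oo y * y.2 ^ (2 : ℝ))) ∂vol := by
        have e1 : ∫ y : Pt, ((2 - s) * (kk oo y * y.2 ^ (1 : ℝ)) +
            (s - 1) * (kk oo y * y.2 ^ (2 : ℝ))) ∂vol =
            ∫ y : Pt, (2 - s) * (kk oo y * y.2 ^ (1 : ℝ)) ∂vol +
              ∫ y : Pt, (s - 1) * (kk oo y * y.2 ^ (2 : ℝ)) ∂vol :=
          integral_add (i1.const_mul _) (i2.const_mul _)
        have e2 : ∫ y : Pt, (2 - s) * (kk oo y * y.2 ^ (1 : ℝ)) ∂vol = (2 - s) * al 1 :=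
          integral_const_mul _ _
        have e3 : ∫ y : Pt, (s - 1) * (kk oo y * y.2 ^ (2 : ℝ)) ∂vol = (s - 1) * al 2 :=
          integral_const_mul _ _
        rw [e1, e2, e3]
      rw [h2]
      apply integral_mono_ae (int_al hCHI hKRN s) ((i1.const_mul _).add (i2.const_mul _))
      filter_upwards [ae_up] with y hy
      have hy0 : 0 < y.2 := hy
      show kk oo y * y.2 ^ s ≤ (2 - s) * (kk oo y * y.2 ^ (1 : ℝ)) +
        (s - 1) * (kk oo y * y.2 ^ (2 : ℝ))
      have h3 : y.2 ^ s ≤ (2 - s) * y.2 ^ (1 : ℝ) + (s - 1) * y.2 ^ (2 : ℝ) := by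
        have h4 := Real.geom_mean_le_arith_mean2_weighted (w₁ := 2 - s) (w₂ := s - 1)
          (p₁ := y.2 ^ (1 : ℝ)) (p₂ := y.2 ^ (2 : ℝ)) (by linarith [hs.2]) (by linarith [hs.1])
          (Real.rpow_nonneg hy0.le _) (Real.rpow_nonneg hy0.le _) (by ring)
        rw [← Real.rpow_mul hy0.le, ← Real.rpow_mul hy0.le, ← Real.rpow_add hy0] at h4
        have h5 : 1 * (2 - s) + 2 * (s - 1) = s := by ring
        rw [h5] at h4
        exact h4
      have h6 := mul_le_mul_of_nonneg_left h3 (kk_nn oo y)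
      linarith
    rw [a2] at h1
    linarith

end Pool.Agent.Helper29.QA
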