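import Pool.Agent.Helper86.QA.St3

/-!
Project QD, part A (MP_d112a4_gt), module QQB: the kernel integrated over two points.
-/

set_option autoImplicit false

open MeasureTheory Matrix Set Topology
open scoped ENNReal ComplexConjugate

namespace Pool.Agent.Helper29.QA

open Pool.Agent.Helper86.QA

attribute [local irreducible] Dl Ar HP mb

/-- the integrand of `QQ` -/
private noncomputable def FF (Pi : Pt → ℂ) (x1 x0 : Pt) (p : Pt × Pt) : ℝ :=
  Dl x0 x1 p.1 p.2 * kk x1 p.1 * kk x1 p.2 * Ar (Pi x1) (Pi p.1) (Pi p.2)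

private theorem QQ_eq (Pi : Pt → ℂ) (x1 x0 : Pt) :
    QQ Pi x1 x0 = ∫ p, FF Pi x1 x0 p ∂(vol.prod vol) := rfl

private theorem kk_01 (x y : Pt) : kk x y = 0 ∨ (kk x y = 1 ∧ ch x y ≤ 2) := by
  unfold kk
  split_ifs with h
  · exact Or.inr ⟨rfl, h⟩
  · exact Or.inl rfl

private theorem ae_upup : ∀ᵐ p ∂(vol.prod vol), p.1 ∈ up ∧ p.2 ∈ up := by
  have h1 : ∀ᵐ p ∂(vol.prod vol), p.1 ∈ up :=
    Measure.quasiMeasurePreserving_fst.ae ae_up
  have h2 : ∀ᵐ p ∂(vol.prod vol), p.2 ∈ up :=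
    Measure.quasiMeasurePreserving_snd.ae ae_up
  filter_upwards [h1, h2] with p a b using ⟨a, b⟩

private theorem ga_mp (hACT : StACT) (hVOL : StVOL) (g : SL) : MeasurePreserving (ga g) vol vol := by
  have hm : Measurable (ga g) := (hACT.2.2.2.1 g).1
  refine ⟨hm, ?_⟩
  ext s hs
  rw [Measure.map_apply hm hs]
  have h := hVOL.2.1 g (s.indicator 1) (measurable_one.indicator hs)
  rw [lintegral_indicator_one hs] at h
  rw [← h, ← lintegral_indicator_one (hm hs)]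
  rfl

private theorem m1 (hD : Measurable (fun p : Pt × Pt × Pt × Pt => Dl p.1 p.2.1 p.2.2.1 p.2.2.2)) :
    Measurable (fun q : (Pt × Pt) × (Pt × Pt) => Dl q.1.2 q.1.1 q.2.1 q.2.2) := by
  have m11 : Measurable (fun q : (Pt × Pt) × (Pt × Pt) => q.1.1) := measurable_fst.fst
  have m12 : Measurable (fun q : (Pt × Pt) × (Pt × Pt) => q.1.2) := measurable_fst.snd
  have m21 : Measurable (fun q : (Pt × Pt) × (Pt × Pt) => q.2.1) := measurable_snd.fst
  have m22 : Measurable (fun q : (Pt × Pt) × (Pt × Pt) => q.2.2) := measurable_snd.snd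
  have m : Measurable (fun q : (Pt × Pt) × (Pt × Pt) => (q.1.2, q.1.1, q.2.1, q.2.2)) := by
    exact Measurable.prodMk m12 (Measurable.prodMk m11 (Measurable.prodMk m21 m22))
  have h := Measurable.comp hD m
  simp only [Function.comp_def] at h
  exact h

private theorem m2 (hK : Measurable (fun p : Pt × Pt => kk p.1 p.2)) :
    Measurable (fun q : (Pt × Pt) × (Pt × Pt) => kk q.1.1 q.2.1) := by
  have m11 : Measurable (fun q : (Pt × Pt) × (Pt × Pt) => q.1.1) := measurable_fst.fst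
  have m21 : Measurable (fun q : (Pt × Pt) × (Pt × Pt) => q.2.1) := measurable_snd.fst
  have m : Measurable (fun q : (Pt × Pt) × (Pt × Pt) => (q.1.1, q.2.1)) := by
    exact Measurable.prodMk m11 m21
  have h := Measurable.comp hK m
  simp only [Function.comp_def] at h
  exact h

private theorem m3 (hK : Measurable (fun p : Pt × Pt => kk p.1 p.2)) :
    Measurable (fun q : (Pt × Pt) × (Pt × Pt) => kk q.1.1 q.2.2) := by
  have m11 : Measurable (fun q : (Pt × Pt) × (Pt × Pt) => q.1.1) := measurable_fst.fst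
  have m22 : Measurable (fun q : (Pt × Pt) × (Pt × Pt) => q.2.2) := measurable_snd.snd
  have m : Measurable (fun q : (Pt × Pt) × (Pt × Pt) => (q.1.1, q.2.2)) := by
    exact Measurable.prodMk m11 m22
  have h := Measurable.comp hK m
  simp only [Function.comp_def] at h
  exact h

private theorem m4 (hA : Measurable (fun p : ℂ × ℂ × ℂ => Ar p.1 p.2.1 p.2.2)) {Pi : Pt → ℂ}
    (hPi : Measurable Pi) :
    Measurable (fun q : (Pt × Pt) × (Pt × Pt) =>
      Ar (Pi q.1.1) (Pi q.2.1) (Pi q.2.2)) := by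
  have m11 : Measurable (fun q : (Pt × Pt) × (Pt × Pt) => q.1.1) := measurable_fst.fst
  have m21 : Measurable (fun q : (Pt × Pt) × (Pt × Pt) => q.2.1) := measurable_snd.fst
  have m22 : Measurable (fun q : (Pt × Pt) × (Pt × Pt) => q.2.2) := measurable_snd.snd
  have a1 := Measurable.comp hPi m11
  have a2 := Measurable.comp hPi m21
  have a3 := Measurable.comp hPi m22
  simp only [Function.comp_def] at a1 a2 a3
  have m : Measurable (fun q : (Pt × Pt) × (Pt × Pt) => (Pi q.1.1, Pi q.2.1, Pi q.2.2)) := by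
    exact Measurable.prodMk a1 (Measurable.prodMk a2 a3)
  have h := Measurable.comp hA m
  simp only [Function.comp_def] at h
  exact h

private theorem FF_meas (hCHI : StCHI) (hDLF : StDLF) (hARC : StARC) {Pi : Pt → ℂ}
    (hPi : Measurable Pi) :
    Measurable (fun q : (Pt × Pt) × (Pt × Pt) => FF Pi q.1.1 q.1.2 q.2) := by
  obtain ⟨-, -, -, -, -, hK⟩ := hCHI
  obtain ⟨-, -, -, -, -, hD, -⟩ := hDLF
  obtain ⟨-, -, -, -, -, hA, -⟩ := hARC
  have e1 := m1 hD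
  have e2 := m2 hK
  have e3 := m3 hK
  have e4 := m4 hA hPi
  have e5 : Measurable (fun q : (Pt × Pt) × (Pt × Pt) => Dl q.1.2 q.1.1 q.2.1 q.2.2 *
      kk q.1.1 q.2.1) := Measurable.mul e1 e2
  have e6 : Measurable (fun q : (Pt × Pt) × (Pt × Pt) => Dl q.1.2 q.1.1 q.2.1 q.2.2 *
      kk q.1.1 q.2.1 * kk q.1.1 q.2.2) := Measurable.mul e5 e3
  have e7 : Measurable (fun q : (Pt × Pt) × (Pt × Pt) => Dl q.1.2 q.1.1 q.2.1 q.2.2 *
      kk q.1.1 q.2.1 * kk q.1.1 q.2.2 * Ar (Pi q.1.1) (Pi q.2.1) (Pi q.2.2)) :=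
    Measurable.mul e6 e4
  unfold FF
  exact e7

private theorem FF_meas1 (hCHI : StCHI) (hDLF : StDLF) (hARC : StARC) {Pi : Pt → ℂ}
    (hPi : Measurable Pi) (x1 x0 : Pt) : Measurable (FF Pi x1 x0) := by
  have h1 : Measurable (fun p : Pt × Pt => (((x1, x0) : Pt × Pt), p)) :=
    Measurable.prodMk measurable_const measurable_id
  have h2 := Measurable.comp (FF_meas hCHI hDLF hARC hPi) h1
  simp only [Function.comp_def] at h2
  exact h2

private theorem FF_bd (hDLF : StDLF) (hARC : StARC) {Pi : Pt → ℂ} (hp : ∀ x, Pi x ∈ HP)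
    {x1 x0 : Pt} (h1 : x1 ∈ up) (h0 : x0 ∈ up) (h : ch x1 x0 ≤ 2) :
    ∀ᵐ p ∂(vol.prod vol), ‖FF Pi x1 x0 p‖ ≤ 159 * Real.pi * (kk x1 p.1 * kk x1 p.2) := by
  filter_upwards [ae_upup] with p ⟨ha, hb⟩
  unfold FF
  rcases kk_01 x1 p.1 with e | ⟨e, e'⟩
  · rw [e]; simp
  rcases kk_01 x1 p.2 with f | ⟨f, f'⟩
  · rw [f]; simp
  rw [e, f, mul_one, mul_one, mul_one, mul_one, norm_mul, Real.norm_eq_abs, Real.norm_eq_abs]
  have hd := hDLF.2.2.2.1 x0 h0 x1 h1 p.1 ha p.2 hb h e' f'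
  have hA := hARC.2.1 (Pi x1) (hp _) (Pi p.1) (hp _) (Pi p.2) (hp _)
  calc _ ≤ 53 * (3 * Real.pi) := mul_le_mul hd hA (abs_nonneg _) (by norm_num)
    _ = 159 * Real.pi := by ring

private theorem G_int (hKRN : StKRN) {x1 : Pt} (h1 : x1 ∈ up) :
    Integrable (fun p : Pt × Pt => 159 * Real.pi * (kk x1 p.1 * kk x1 p.2)) (vol.prod vol) ∧
    ∫ p : Pt × Pt, 159 * Real.pi * (kk x1 p.1 * kk x1 p.2) ∂(vol.prod vol) = CQ := by
  obtain ⟨a, b⟩ := hKRN.2.2 x1 h1
  refine ⟨(a.mul_prod a).const_mul _, ?_⟩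
  rw [integral_const_mul, integral_prod_mul (kk x1) (kk x1), b, CQ]
  ring

theorem hQQB (hACT : StACT) (hCHI : StCHI) (hVOL : StVOL) (hKRN : StKRN) (hDLF : StDLF)
    (hARC : StARC) : StQQB := by
  intro Γ _ ρ σ hσ Pi hPi
  refine ⟨?_, ?_, ?_, ?_⟩
  · have h := StronglyMeasurable.integral_prod_right (ν := vol.prod vol)
      (f := fun (q : Pt × Pt) (p : Pt × Pt) => FF Pi q.1 q.2 p) (FF_meas hCHI hDLF hARC hPi.me).stronglyMeasurable
    exact h.measurable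
  · intro x1 h1 x0 h0 h
    obtain ⟨a, b⟩ := G_int hKRN h1
    have := norm_integral_le_of_norm_le a (FF_bd hDLF hARC hPi.hp h1 h0 h)
    rw [b] at this
    exact this
  · intro γ x1 h1 x0 h0
    have hmp : MeasurePreserving (Prod.map (ga (ρ γ)) (ga (ρ γ))) (vol.prod vol) (vol.prod vol) :=
      (ga_mp hACT hVOL (ρ γ)).prod (ga_mp hACT hVOL (ρ γ))
    show QQ Pi (ga (ρ γ) x1) (ga (ρ γ) x0) = QQ Pi x1 x0
    rw [QQ_eq, QQ_eq]
    conv_lhs => rw [← hmp.map_eq]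
    rw [integral_map hmp.measurable.aemeasurable
      (FF_meas1 hCHI hDLF hARC hPi.me _ _).aestronglyMeasurable]
    refine integral_congr_ae ?_
    filter_upwards [ae_upup] with p ⟨ha, hb⟩
    show FF Pi (ga (ρ γ) x1) (ga (ρ γ) x0) (ga (ρ γ) p.1, ga (ρ γ) p.2) = FF Pi x1 x0 p
    unfold FF
    have e1 := (hDLF.2.1 (ρ γ) x0 h0 x1 h1 p.1 ha p.2 hb).1
    have e2 := (hCHI.2.1 (ρ γ) x1 h1 p.1 ha).2
    have e3 := (hCHI.2.1 (ρ γ) x1 h1 p.2 hb).2
    have f1 : Pi (ga (ρ γ) x1) = mb (σ γ) (Pi x1) := hPi.eq γ x1 h1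
    have f2 : Pi (ga (ρ γ) p.1) = mb (σ γ) (Pi p.1) := hPi.eq γ p.1 ha
    have f3 : Pi (ga (ρ γ) p.2) = mb (σ γ) (Pi p.2) := hPi.eq γ p.2 hb
    have e4 := hARC.2.2.2.2.1 (σ γ) (hσ γ) (Pi x1) (hPi.hp _) (Pi p.1) (hPi.hp _) (Pi p.2)
      (hPi.hp _)
    simp only [e1, e2, e3, f1, f2, f3, e4]
  · intro x1 h1 x0 h0 h
    obtain ⟨a, b⟩ := G_int hKRN h1
    exact Integrable.mono' a (FF_meas1 hCHI hDLF hARC hPi.me x1 x0).aestronglyMeasurable
      (FF_bd hDLF hARC hPi.hp h1 h0 h)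

end Pool.Agent.Helper29.QA
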